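import Pool.Agent.Helper64.DT.Stmts

/-! Diamond-free circle graphs (MP_866009_co): module AT2. -/

set_option autoImplicit false

namespace Pool.Agent.Helper64.DT

open Pool.Agent.Helper64.CT

theorem st_AT2 : ST_AT2 := by
  intro V G hP c z y n hz hy hne hn
  by_contra hcon
  push Not at hcon
  have key : ∀ a b, (Comp G c z a ∨ a = n) → ¬ (Comp G c z b ∨ b = n) → G.Adj a b → a = n := by
    intro a b ha hb hab
    rcases ha with ha | ha
    · exfalso
      have hac := ha.right
      by_cases hbc : b = c
      · subst hbc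
        exact hac.2 hab.symm
      · by_cases hcb : G.Adj c b
        · have : b ∈ Att G c z := ⟨hcb, a, ha, hab.symm⟩
          exact hb (Or.inr (hcon b this))
        · exact hb (Or.inl (ha.step ⟨hbc, hcb⟩ hab))
    · exact ha
  have hcn : G.Adj c n := hn.1
  refine hP {u | Comp G c z u ∨ u = n} ⟨?_, ?_, ?_⟩
  · intro a ha a' ha' b hb b' hb' hab hab'
    have e1 := key a b ha hb hab
    have e2 := key a' b' ha' hb' hab'
    rw [e1, ← e2]
    exact hab'
  · refine ⟨z, Or.inl (Comp.refl hz), n, Or.inr rfl, ?_⟩
    intro e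
    exact hz.2 (e ▸ hcn)
  · refine ⟨c, ?_, y, ?_, ?_⟩
    · rintro (h | h)
      · exact h.right.1 rfl
      · exact hcn.ne h
    · rintro (h | h)
      · exact hne h
      · exact hy.2 (h ▸ hcn)
    · intro e
      exact hy.1 e.symm

end Pool.Agent.Helper64.DT
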